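import Pool.Agent.LCK.Stmts

/-!
# Locked chains (MP_e0fe99_lc), row PAR: rational parametrisation of chains
-/

set_option autoImplicit false

open Topology

namespace Pool.Agent.LCK.H76

theorem Q_nonneg (a : Fin 3 → ℝ) : 0 ≤ Q a := by
  unfold Q
  positivity

theorem norm_U (a : Fin 3 → ℝ) : ‖U a‖ = Q a := by
  have h : ‖U a‖ ^ 2 = Q a ^ 2 := by
    rw [EuclideanSpace.norm_sq_eq, Fin.sum_univ_three]
    simp only [U, Q, Real.norm_eq_abs, sq_abs]
    simp
    ring
  exact (pow_left_inj₀ (norm_nonneg _) (Q_nonneg a) two_ne_zero).1 h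

theorem exists_dir (w : E3) (hw : ‖w‖ = 1) : ∃ b : Fin 3 → ℝ, Q b ≠ 0 ∧ U b = Q b • w := by
  have h1 : w 0 ^ 2 + w 1 ^ 2 + w 2 ^ 2 = 1 := by
    have h := EuclideanSpace.norm_sq_eq w
    rw [hw, Fin.sum_univ_three] at h
    simp only [Real.norm_eq_abs, sq_abs] at h
    linarith
  by_cases hr : w 2 = 1
  · have h0 : w 0 = 0 := by nlinarith [sq_nonneg (w 0), sq_nonneg (w 1)]
    have h2 : w 1 = 0 := by nlinarith [sq_nonneg (w 0), sq_nonneg (w 1)]
    refine ⟨![1, 0, 0], ?_, ?_⟩
    · simp [Q]
    · ext i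
      fin_cases i
      · simp [Q, U, h0]
      · simp [Q, U, h2]
      · simp [Q, U, hr]
  · have hQ : Q ![w 0, w 1, 1 - w 2] = 2 * (1 - w 2) := by
      have : Q ![w 0, w 1, 1 - w 2] = w 0 ^ 2 + w 1 ^ 2 + (1 - w 2) ^ 2 := by simp [Q]
      rw [this]
      nlinarith
    refine ⟨![w 0, w 1, 1 - w 2], ?_, ?_⟩
    · rw [hQ]
      intro h
      apply hr
      linarith
    · rw [hQ]
      ext i
      fin_cases i
      · simp [U]
        ring
      · simp [U]
        ring
      · simp [U]
        nlinarith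

theorem V_succ {n : ℕ} (l : Fin n → ℝ) (a : Fin (n + 1) × Fin 3 → ℝ) (k : Fin n) :
    V l a k.succ - V l a k.castSucc =
      (l k / Q (fun i => a (k.succ, i))) • U (fun i => a (k.succ, i)) := by
  unfold V
  rw [add_sub_add_left_eq_sub, ← Finset.sum_sub_distrib, Finset.sum_eq_single k]
  · simp
  · intro j _ hj
    have hj' : (j : ℕ) ≠ (k : ℕ) := fun h => hj (Fin.ext h)
    by_cases h : (j : ℕ) < (k : ℕ)
    · have h2 : (j : ℕ) < ((k.succ : Fin (n + 1)) : ℕ) := by
        rw [Fin.val_succ]
        omega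
      have h3 : (j : ℕ) < ((k.castSucc : Fin (n + 1)) : ℕ) := h
      rw [if_pos h2, if_pos h3, sub_self]
    · have h2 : ¬ (j : ℕ) < ((k.succ : Fin (n + 1)) : ℕ) := by
        rw [Fin.val_succ]
        omega
      have h3 : ¬ (j : ℕ) < ((k.castSucc : Fin (n + 1)) : ℕ) := h
      rw [if_neg h2, if_neg h3, sub_self]
  · intro h
    exact absurd (Finset.mem_univ k) h

theorem V_zero {n : ℕ} (l : Fin n → ℝ) (a : Fin (n + 1) × Fin 3 → ℝ) :
    V l a 0 = WithLp.toLp 2 (fun i => a (0, i)) := by
  unfold V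
  rw [Finset.sum_eq_zero, add_zero]
  intro j _
  rw [if_neg]
  simp

theorem continuous_U : Continuous U := by
  unfold U
  refine (PiLp.continuous_toLp 2 _).comp (continuous_pi fun i => ?_)
  fin_cases i
  · simp
    fun_prop
  · simp
    fun_prop
  · simp
    fun_prop

theorem continuous_Q : Continuous Q := by
  unfold Q
  fun_prop

theorem V_cont {n : ℕ} (l : Fin n → ℝ) (a : Fin (n + 1) × Fin 3 → ℝ)
    (ha : ∀ j : Fin n, Q (fun i => a (j.succ, i)) ≠ 0) : ContinuousAt (V l) a := by
  rw [continuousAt_pi]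
  intro k
  unfold V
  refine ContinuousAt.add ?_ ?_
  · refine Continuous.continuousAt ?_
    exact (PiLp.continuous_toLp 2 _).comp (continuous_pi fun i => continuous_apply _)
  · refine tendsto_finsetSum _ fun j _ => ?_
    by_cases h : (j : ℕ) < (k : ℕ)
    · simp only [if_pos h]
      have hc : Continuous fun b : Fin (n + 1) × Fin 3 → ℝ => fun i : Fin 3 => b (j.succ, i) :=
        continuous_pi fun i => continuous_apply _
      have h1 : ContinuousAt (fun b : Fin (n + 1) × Fin 3 → ℝ =>
          (l j / Q (fun i => b (j.succ, i))) • U (fun i => b (j.succ, i))) a := by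
        have hq : ContinuousAt (fun b : Fin (n + 1) × Fin 3 → ℝ =>
            l j / Q (fun i => b (j.succ, i))) a :=
          continuousAt_const.div (continuous_Q.comp hc).continuousAt (ha j)
        exact hq.smul (continuous_U.comp hc).continuousAt
      exact h1
    · simp only [if_neg h]
      exact tendsto_const_nhds

/-- PAR -/
theorem par : PARStmt := by
  intro n l hl
  refine ⟨fun v hv => ?_, fun a ha => ⟨fun k => V_succ l a k, fun k => ?_, V_cont l a ha⟩⟩
  · have hb : ∀ j : Fin n, ∃ b : Fin 3 → ℝ, Q b ≠ 0 ∧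
        U b = Q b • ((l j)⁻¹ • (v j.succ - v j.castSucc)) := by
      intro j
      apply exists_dir
      rw [norm_smul, ← dist_eq_norm, dist_comm, hv j, norm_inv, Real.norm_of_nonneg (hl j).le,
        inv_mul_cancel₀ (hl j).ne']
    choose b hb1 hb2 using hb
    refine ⟨fun p => Fin.cases (motive := fun _ => ℝ) (v 0 p.2) (fun j => b j p.2) p.1, ?_, ?_⟩
    · intro j
      simp only [Fin.cases_succ]
      exact hb1 j
    · funext k
      refine Fin.induction ?_ (fun i ih => ?_) k
      · rw [V_zero]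
        ext i
        simp
      · have h1 := V_succ l (fun p : Fin (n + 1) × Fin 3 =>
          Fin.cases (motive := fun _ => ℝ) (v 0 p.2) (fun j => b j p.2) p.1) i
        rw [ih] at h1
        simp only [Fin.cases_succ] at h1
        have h2 : (l i / Q (fun i_1 => b i i_1)) • U (fun i_1 => b i i_1) =
            v i.succ - v i.castSucc := by
          have e1 : (fun i_1 => b i i_1) = b i := rfl
          rw [e1, hb2 i, smul_smul, smul_smul]
          have e2 : l i / Q (b i) * (Q (b i) * (l i)⁻¹) = 1 := by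
            have := hb1 i
            have := (hl i).ne'
            field_simp
          rw [mul_assoc, e2, one_smul]
        rw [h2] at h1
        exact sub_left_inj.1 h1
  · rw [dist_comm, dist_eq_norm, V_succ, norm_smul, norm_U, Real.norm_eq_abs,
      abs_of_nonneg (div_nonneg (hl k).le (Q_nonneg _)), div_mul_cancel₀ _ (ha k)]

end Pool.Agent.LCK.H76
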